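import Pool.Agent.Helper90.TW.OrbDefs
import Pool.Agent.Helper17.FF.Degree
import Pool.Agent.Helper99.M.MU

/-!
# Project TW (MP_e66f84_ag), block ORB, part c: the point at infinity and the roots
-/

set_option autoImplicit false

namespace Pool.Agent.TOW

open VC IntermediateField NumberField IsDedekindDomain Pool.Agent.SC Pool.Agent.L Pool.Agent.M
open Polynomial (aeval)

noncomputable section

/-! ## The polynomial `f(x) = c ∏ (x - β)` -/

section poly

variable {k K0 E U : Type} [Field k] [NumberField k] [Field K0] [Field E] [Field U]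
  [Algebra k K0] [Algebra k E] [Algebra E U] [Algebra K0 U] [Algebra k U] [IsScalarTower k E U]
  [IsScalarTower k K0 U] {x : K0} {f : Polynomial k} {r : U}

theorem split32 (H : Hyp E x f r) : ∃ (c : E) (R : Finset E), c ≠ 0 ∧
    (∀ β : E, β ∈ R ↔ aeval β f = 0) ∧ R.card = f.natDegree ∧
    algebraMap K0 U (aeval x f) =
      algebraMap E U c * ∏ β ∈ R, (algebraMap K0 U x - algebraMap E U β) := by
  classical
  have hcl : IsAlgClosed E := H.geo.clE
  have hsep : f.Separable := H.irr.separable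
  have hf0 : f ≠ 0 := H.irr.ne_zero
  have hsep' : (f.map (algebraMap k E)).Separable := hsep.map
  have hf0' : f.map (algebraMap k E) ≠ 0 := by
    rwa [Ne, Polynomial.map_eq_zero]
  have hsp : (f.map (algebraMap k E)).Splits := IsAlgClosed.splits _
  have hnd : (f.map (algebraMap k E)).roots.Nodup := Polynomial.nodup_roots hsep'
  refine ⟨(f.map (algebraMap k E)).leadingCoeff, (f.map (algebraMap k E)).roots.toFinset, ?_, ?_,
    ?_, ?_⟩
  · rwa [Ne, Polynomial.leadingCoeff_eq_zero]
  · intro β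
    rw [Multiset.mem_toFinset, Polynomial.mem_roots hf0', Polynomial.IsRoot.def,
      Polynomial.eval_map_algebraMap]
  · rw [Multiset.toFinset_card_of_nodup hnd, ← hsp.natDegree_eq_card_roots,
      Polynomial.natDegree_map]
  · have h1 : algebraMap K0 U (aeval x f) = aeval (algebraMap K0 U x) f :=
      (Polynomial.aeval_algebraMap_apply U x f).symm
    have h2 : aeval (algebraMap K0 U x) f = aeval (algebraMap K0 U x) (f.map (algebraMap k E)) :=
      (Polynomial.aeval_map_algebraMap E (algebraMap K0 U x) f).symm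
    rw [h1, h2]
    conv_lhs => rw [hsp.eq_prod_roots]
    rw [map_mul, Polynomial.aeval_C, map_multiset_prod, Multiset.map_map]
    congr 1
    rw [Finset.prod_eq_multiset_prod, Multiset.toFinset_val, hnd.dedup]
    congr 1
    refine Multiset.map_congr rfl fun β _ => ?_
    simp only [Function.comp, map_sub, Polynomial.aeval_X, Polynomial.aeval_C]

theorem trans32 (H : Hyp E x f r) : Transcendental E (algebraMap K0 U x) := by
  have halg : Algebra.IsAlgebraic k E := H.geo.algE
  intro h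
  have h1 : IsAlgebraic k (algebraMap K0 U x) := h.restrictScalars k
  exact H.tr ((isAlgebraic_algebraMap_iff (algebraMap K0 U).injective).1 h1)

theorem sub_ne32 (H : Hyp E x f r) (β : E) : algebraMap K0 U x - algebraMap E U β ≠ 0 := by
  intro h
  rw [sub_eq_zero] at h
  apply trans32 H
  rw [h]
  exact isAlgebraic_algebraMap β

theorem chE32 (H : Hyp E x f r) : CharZero E :=
  charZero_of_injective_algebraMap (algebraMap k E).injective

theorem r_ne32 (H : Hyp E x f r) : r ≠ 0 := by
  rintro rfl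
  exact H.geo.rnot (zero_mem _)

end poly

/-! ## Membership -/

section mem

variable {E K0 U : Type} [Field E] [Field K0] [Field U] [Algebra E U] [Algebra K0 U] {r : U}

theorem L0_le_MM32 : L0 E K0 (U := U) ≤ MM E K0 r := by
  unfold L0 MM
  exact IntermediateField.adjoin.mono _ _ _ Set.subset_union_left

theorem r_mem32 : r ∈ MM E K0 r := IntermediateField.subset_adjoin _ _ (Or.inr rfl)

theorem MM_le32 {m : ℕ} : MM E K0 r ≤ NX E K0 r m := fun _ hz =>
  IntermediateField.subset_adjoin _ _ (Or.inl hz)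

theorem RX_mem32 {m : ℕ} {w : U} (hw : RX E K0 r m w) : w ∈ NX E K0 r m :=
  IntermediateField.subset_adjoin _ _ (Or.inr hw)

theorem K_mem32 (y : K0) : algebraMap K0 U y ∈ L0 E K0 (U := U) :=
  IntermediateField.subset_adjoin _ _ ⟨y, rfl⟩

theorem KN_mem32 {m : ℕ} (y : K0) : algebraMap K0 U y ∈ NX E K0 r m :=
  MM_le32 (L0_le_MM32 (K_mem32 y))

/-- an automorphism which fixes `E` and `K0` is trivial on `L0` -/
theorem AuE.fixL32 {T : U ≃+* U} (hT : AuE E K0 T) {z : U} (hz : z ∈ L0 E K0 (U := U)) : T z = z := by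
  unfold Pool.Agent.L.L0 at hz
  induction hz using IntermediateField.adjoin_induction with
  | mem y hy =>
    obtain ⟨c, rfl⟩ := hy
    exact hT.fixK c
  | algebraMap e => exact hT.fixE e
  | add y z _ _ h1 h2 => rw [map_add, h1, h2]
  | inv y _ h1 => rw [map_inv₀, h1]
  | mul y z _ _ h1 h2 => rw [map_mul, h1, h2]

theorem AuE.au32 {T : U ≃+* U} (hT : AuE E K0 T) : Au E K0 T where
  fixK := hT.fixK
  presE := fun e => ⟨e, hT.fixE e⟩

theorem AuE.symm32 {T : U ≃+* U} (hT : AuE E K0 T) : AuE E K0 T.symm where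
  fixK := fun y => by rw [RingEquiv.symm_apply_eq, hT.fixK]
  fixE := fun e => by rw [RingEquiv.symm_apply_eq, hT.fixE]

theorem AuE.trans32 {T T' : U ≃+* U} (hT : AuE E K0 T) (hT' : AuE E K0 T') :
    AuE E K0 (T.trans T') where
  fixK := fun y => by rw [RingEquiv.trans_apply, hT.fixK, hT'.fixK]
  fixE := fun e => by rw [RingEquiv.trans_apply, hT.fixE, hT'.fixE]

theorem moves_trans32 {N : IntermediateField E U} {T T' : U ≃+* U} {Q Q' Q'' : Place E N}
    (hN : ∀ z ∈ N, T z ∈ N) (h : Moves T N Q Q') (h' : Moves T' N Q' Q'') :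
    Moves (T.trans T') N Q Q'' := by
  intro z hz hz'
  exact (h z hz (hN z hz)).trans (h' (T z) (hN z hz) hz')

theorem moves_symm32 {N : IntermediateField E U} {T : U ≃+* U} {Q Q' : Place E N}
    (h : Moves T N Q Q') : Moves T.symm N Q' Q := by
  intro z hz hz'
  have h1 : T (T.symm z) ∈ N := by rwa [RingEquiv.apply_symm_apply]
  have h2 := h (T.symm z) hz' h1
  have h3 : (⟨T (T.symm z), h1⟩ : N) = ⟨z, hz⟩ := Subtype.ext (RingEquiv.apply_symm_apply T z)
  rw [h3] at h2
  exact h2.symm

end mem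

/-! ## Valuations -/

section val

variable {k K0 E U : Type} [Field k] [NumberField k] [Field K0] [Field E] [Field U]
  [Algebra k K0] [Algebra k E] [Algebra E U] [Algebra K0 U] [Algebra k U] [IsScalarTower k E U]
  [IsScalarTower k K0 U] {x : K0} {f : Polynomial k} {r : U}

/-- non-zero constants have valuation one -/
theorem val_const32 {F : Type} [Field F] [Algebra E F] (Q : Place E F) {c : E} (hc : c ≠ 0) :
    Q.ring.valuation (algebraMap E F c) = 1 := by
  have h1 : Q.ring.valuation (algebraMap E F c) ≤ 1 := by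
    rw [ValuationSubring.valuation_le_one_iff]
    exact Q.algebraMap_mem c
  have h2 : Q.ring.valuation (algebraMap E F c⁻¹) ≤ 1 := by
    rw [ValuationSubring.valuation_le_one_iff]
    exact Q.algebraMap_mem _
  refine le_antisymm h1 ?_
  have h3 : Q.ring.valuation (algebraMap E F c) * Q.ring.valuation (algebraMap E F c⁻¹) = 1 := by
    rw [← map_mul, ← map_mul, mul_inv_cancel₀ hc, map_one, map_one]
  calc (1 : _) = Q.ring.valuation (algebraMap E F c) * Q.ring.valuation (algebraMap E F c⁻¹) :=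
        h3.symm
    _ ≤ Q.ring.valuation (algebraMap E F c) * 1 := by gcongr
    _ = _ := mul_one _

/-- at a place over infinity all `x - γ` have the valuation of `x` -/
theorem val_inf32 {F : Type} [Field F] [Algebra E F] (Q : Place E F) {y : F} (hy : y ∉ Q.ring)
    (γ : E) : Q.ring.valuation (y - algebraMap E F γ) = Q.ring.valuation y := by
  have h1 : 1 < Q.ring.valuation y := by
    rw [← not_le, ValuationSubring.valuation_le_one_iff]
    exact hy
  have h2 : Q.ring.valuation (algebraMap E F γ) ≤ 1 := by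
    rw [ValuationSubring.valuation_le_one_iff]
    exact Q.algebraMap_mem γ
  exact Valuation.map_sub_eq_of_lt_left _ (h2.trans_lt h1)

/-- at a place over `x = γ` the other `x - β` are units -/
theorem val_fin32 {F : Type} [Field F] [Algebra E F] (Q : Place E F) {y : F} {γ β : E}
    (hy : Q.ring.valuation (y - algebraMap E F γ) < 1) (h : β ≠ γ) :
    Q.ring.valuation (y - algebraMap E F β) = 1 := by
  have h1 : y - algebraMap E F β = (y - algebraMap E F γ) + algebraMap E F (γ - β) := by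
    rw [map_sub]
    ring
  have h2 := val_const32 Q (sub_ne_zero.2 h.symm)
  rw [h1, Valuation.map_add_eq_of_lt_right _ (by rw [h2]; exact hy), h2]

theorem val_sq32 {F : Type} [Field F] {R : ValuationSubring F} {v : F} {n : ℕ} (hn : n ≠ 0)
    (h : R.valuation (v ^ n) = 1) : R.valuation v = 1 := by
  rw [map_pow] at h
  exact (pow_eq_one_iff_of_nonneg zero_le hn).1 h

/-- the square roots of `x - β` are in the levels `n ≥ 1` -/
theorem w_mem32 {n : ℕ} (hn : 1 ≤ n) {β : E} {w : U} (hw0 : w ≠ 0)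
    (hw : w ^ 2 = algebraMap K0 U x - algebraMap E U β) : RX E K0 r (2 ^ n) w := by
  obtain ⟨j, rfl⟩ : ∃ j, n = j + 1 := ⟨n - 1, by omega⟩
  refine ⟨hw0, ?_⟩
  rw [pow_succ', pow_mul, hw]
  exact pow_mem (sub_mem (L0_le_MM32 (K_mem32 x)) ((MM E K0 r).algebraMap_mem β)) _

end val

/-! ## OI1 -/

theorem oI1 : StmtPX1 → StmtOG1 → StmtOI1 := by
  intro hP hG k K0 E U _ _ _ _ _ _ _ _ _ _ _ _ x f r H n hn Q hQ i hi hir hiQ β w hβ hw
  classical
  have hcl : IsAlgClosed E := H.geo.clE
  have hch : CharZero E := chE32 H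
  obtain ⟨hstab, -, hff, -⟩ := hP k K0 E U (aeval x f) r H.geo n
  obtain ⟨c, R, hc0, hR, hRc, hprod⟩ := split32 H
  have hw0 : w ≠ 0 := by
    rintro rfl
    rw [zero_pow two_ne_zero] at hw
    exact sub_ne32 H β hw.symm
  have hsq : (i w) ^ 2 = w ^ 2 := by
    rw [← map_pow, hw, map_sub, hi.fixK, hi.fixE]
  rcases sq_eq_sq_iff_eq_or_eq_neg.1 hsq with h | h
  swap
  · exact h
  exfalso
  have hwN : w ∈ NX E K0 r (2 ^ n) := RX_mem32 (w_mem32 (r := r) hn hw0 hw)
  have hrN : r ∈ NX E K0 r (2 ^ n) := MM_le32 r_mem32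
  have hXN : algebraMap K0 U x ∈ NX E K0 r (2 ^ n) := KN_mem32 x
  have hX : (⟨algebraMap K0 U x, hXN⟩ : NX E K0 r (2 ^ n)) ∉ Q.ring := hQ hXN
  have hval := fun γ : E => val_inf32 Q hX γ
  have hX0 : Q.ring.valuation (⟨algebraMap K0 U x, hXN⟩ : NX E K0 r (2 ^ n)) ≠ 0 := by
    rw [← hval β, Valuation.ne_zero_iff]
    intro h0
    exact sub_ne32 H β (congrArg Subtype.val h0)
  obtain ⟨v, hv⟩ : ∃ v : NX E K0 r (2 ^ n), v = ⟨w, hwN⟩ ^ f.natDegree / ⟨r, hrN⟩ := ⟨_, rfl⟩
  have hr2 : (⟨r, hrN⟩ : NX E K0 r (2 ^ n)) ^ 2 = algebraMap E _ c *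
      ∏ γ ∈ R, ((⟨algebraMap K0 U x, hXN⟩ : NX E K0 r (2 ^ n)) - algebraMap E _ γ) := by
    apply (algebraMap (NX E K0 r (2 ^ n)) U).injective
    rw [map_pow, map_mul, map_prod]
    change r ^ 2 = algebraMap E U c * ∏ γ ∈ R, (algebraMap K0 U x - algebraMap E U γ)
    rw [← hprod]
    exact H.geo.rsq
  have hvr : Q.ring.valuation ((⟨r, hrN⟩ : NX E K0 r (2 ^ n)) ^ 2) =
      Q.ring.valuation (⟨algebraMap K0 U x, hXN⟩ : NX E K0 r (2 ^ n)) ^ f.natDegree := by
    rw [hr2, map_mul, val_const32 Q hc0, one_mul, map_prod,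
      Finset.prod_congr rfl fun γ _ => hval γ, Finset.prod_const, hRc]
  have hw2 : (⟨w, hwN⟩ : NX E K0 r (2 ^ n)) ^ 2 =
      (⟨algebraMap K0 U x, hXN⟩ : NX E K0 r (2 ^ n)) - algebraMap E _ β := Subtype.ext hw
  have hv1 : Q.ring.valuation (v ^ 2) = 1 := by
    rw [hv, div_pow, map_div₀, hvr, ← pow_mul, mul_comm, pow_mul, hw2, map_pow, hval β,
      div_self (pow_ne_zero _ hX0)]
  refine hG E U (NX E K0 r (2 ^ n)) hff Q i hi.fixE hiQ v (val_sq32 two_ne_zero hv1) ?_
  have e1 : (v : U) = w ^ f.natDegree / r := by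
    rw [hv]
    rfl
  rw [e1, map_div₀, map_pow, h, hir, div_neg]

/-! ## OI2 -/

theorem oI2 : StmtKX2 → StmtINF → StmtPX1 → StmtOG1 → StmtOI1 → StmtOI2 := by
  intro hK hI hP hG hO k K0 E U _ _ _ _ _ _ _ _ _ _ _ _ x f r H n hn Q hQ i hi hir hiQ Q' hiQ'
  classical
  have hcl : IsAlgClosed E := H.geo.clE
  have hch : CharZero E := chE32 H
  obtain ⟨hstab, -, hff, htrans, htriv, -⟩ := hP k K0 E U (aeval x f) r H.geo n
  obtain ⟨b₀, -, hb₀, -⟩ := hI k K0 E U x f r H
  obtain ⟨c, R, hc0, hR, hRc, hprod⟩ := split32 H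
  have hXN : algebraMap K0 U x ∈ NX E K0 r (2 ^ n) := KN_mem32 x
  -- `Q'` is over infinity
  have hQ' : Infp x Q' := by
    intro hX hXQ
    obtain ⟨γ, hγ⟩ := FF.exists_residue hff Q' hXQ
    rw [ValuationSubring.mem_nonunits_iff] at hγ
    obtain ⟨β, hβR, hβγ⟩ : ∃ β ∈ R, β ≠ γ := by
      by_contra hcon
      push Not at hcon
      have h1 : R ⊆ {γ} := fun β hβ => Finset.mem_singleton.2 (hcon β hβ)
      have h2 := Finset.card_le_card h1
      rw [hRc, Finset.card_singleton] at h2
      have h3 := H.deg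
      omega
    have h1 := val_fin32 Q' hγ hβγ
    have hβ := (hR β).1 hβR
    obtain ⟨w, hw⟩ := (hK k K0 E U x f r H).1 β hβ
    have hw0 : w ≠ 0 := by
      rintro rfl
      rw [zero_pow two_ne_zero] at hw
      exact sub_ne32 H β hw.symm
    have hwN : w ∈ NX E K0 r (2 ^ n) := RX_mem32 (w_mem32 (r := r) hn hw0 hw)
    have h2 : (⟨w, hwN⟩ : NX E K0 r (2 ^ n)) ^ 2 =
        (⟨algebraMap K0 U x, hX⟩ : NX E K0 r (2 ^ n)) - algebraMap E _ β := Subtype.ext hw
    have h3 : Q'.ring.valuation (⟨w, hwN⟩ : NX E K0 r (2 ^ n)) = 1 :=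
      val_sq32 two_ne_zero (by rw [h2]; exact h1)
    exact hG E U (NX E K0 r (2 ^ n)) hff Q' i hi.fixE hiQ' ⟨w, hwN⟩ h3
      (hO k K0 E U x f r H n hn Q hQ i hi hir hiQ β w hβ hw)
  -- the transitivity
  have hbQ := (hb₀ n Q).1 hQ
  have hbQ' := (hb₀ n Q').1 hQ'
  have hover : ∀ b : Place E (L0 E K0 (U := U)), OverPl b Q ↔ OverPl b Q' := by
    have key : ∀ (P P' : Place E (NX E K0 r (2 ^ n))), OverPl b₀ P → OverPl b₀ P' →
        ∀ b : Place E (L0 E K0 (U := U)), OverPl b P → OverPl b P' := by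
      intro P P' h1 h2 b hb z hz hz'
      rw [hb z hz hz', ← h1 z hz hz', h2 z hz hz']
    exact fun b => ⟨key Q Q' hbQ hbQ' b, key Q' Q hbQ' hbQ b⟩
  obtain ⟨T, hT, hTQ⟩ := htrans Q Q' hover
  have hTr : T r = r ∨ T r = -r := by
    apply sq_eq_sq_iff_eq_or_eq_neg.1
    rw [← map_pow, H.geo.rsq, hT.fixK]
  obtain ⟨a, ha, har, haQ⟩ : ∃ a : U ≃+* U, AuE E K0 a ∧ a r = r ∧ Moves a _ Q Q' := by
    rcases hTr with h | h
    · exact ⟨T, hT, h, hTQ⟩
    · refine ⟨i.trans T, hi.trans32 hT, ?_, moves_trans32 (fun z hz => hstab i hi.au32 z hz) hiQ hTQ⟩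
      rw [RingEquiv.trans_apply, hir, map_neg, h, neg_neg]
  refine ⟨a, ha, har, haQ, fun z hz => ?_⟩
  -- the commutator
  obtain ⟨S, hS⟩ : ∃ S : U ≃+* U, S = ((a.trans i).trans a.symm).trans i.symm := ⟨_, rfl⟩
  have hSE : AuE E K0 S := by
    rw [hS]
    exact ((ha.trans32 hi).trans32 ha.symm32).trans32 hi.symm32
  have hSr : S r = r := by
    rw [hS]
    simp only [RingEquiv.trans_apply]
    rw [har, hir, RingEquiv.symm_apply_eq, RingEquiv.symm_apply_eq, hir, map_neg, har]
  have hSQ : Moves S _ Q Q := by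
    rw [hS]
    refine moves_trans32 (fun z hz => ?_) (moves_trans32 (fun z hz => ?_)
      (moves_trans32 (fun z hz => hstab a ha.au32 z hz) haQ hiQ') (moves_symm32 haQ))
      (moves_symm32 hiQ)
    · exact hstab _ ((ha.trans32 hi).trans32 ha.symm32).au32 z hz
    · exact hstab _ (ha.trans32 hi).au32 z hz
  have h1 := htriv S Q hSE hSr hSQ z hz
  rw [hS] at h1
  simp only [RingEquiv.trans_apply] at h1
  rw [RingEquiv.symm_apply_eq, RingEquiv.symm_apply_eq] at h1
  exact h1.symm

/-! ## OI3 -/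

section line

variable {k K0 E U : Type} [Field k] [NumberField k] [Field K0] [Field E] [Field U]
  [Algebra k K0] [Algebra k E] [Algebra E U] [Algebra K0 U] [Algebra k U] [IsScalarTower k E U]
  [IsScalarTower k K0 U] {x : K0} {f : Polynomial k} {r : U}

/-- `L0 = E (x - β)` -/
theorem gen32 (H : Hyp E x f r) (β : E) :
    IntermediateField.adjoin E {inL0 (E := E) (U := U) x - algebraMap E (L0 E K0 (U := U)) β} =
      ⊤ := by
  obtain ⟨F, hF⟩ : ∃ F : IntermediateField E (L0 E K0 (U := U)), F = IntermediateField.adjoin E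
    {inL0 (E := E) (U := U) x - algebraMap E (L0 E K0 (U := U)) β} := ⟨_, rfl⟩
  rw [← hF]
  have hx : inL0 (E := E) (U := U) x ∈ F := by
    have h1 : inL0 (E := E) (U := U) x - algebraMap E (L0 E K0 (U := U)) β ∈ F := by
      rw [hF]
      exact IntermediateField.mem_adjoin_simple_self E _
    have h2 := add_mem h1 (F.algebraMap_mem β)
    rwa [sub_add_cancel] at h2
  have hK : ∀ y : K0, inL0 (E := E) (U := U) y ∈ F := by
    intro y
    have hy : y ∈ IntermediateField.adjoin k {x} := by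
      rw [H.gen]
      trivial
    induction hy using IntermediateField.adjoin_induction with
    | mem y hy =>
      rw [Set.mem_singleton_iff] at hy
      rw [hy]
      exact hx
    | algebraMap a =>
      have h1 : inL0 (E := E) (U := U) (algebraMap k K0 a) =
          algebraMap E (L0 E K0 (U := U)) (algebraMap k E a) := by
        apply Subtype.ext
        change algebraMap K0 U (algebraMap k K0 a) = algebraMap E U (algebraMap k E a)
        rw [← IsScalarTower.algebraMap_apply k K0 U, ← IsScalarTower.algebraMap_apply k E U]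
      rw [h1]
      exact F.algebraMap_mem _
    | add y z _ _ h1 h2 =>
      have h3 : inL0 (E := E) (U := U) (y + z) = inL0 y + inL0 z :=
        Subtype.ext (map_add (algebraMap K0 U) y z)
      rw [h3]
      exact add_mem h1 h2
    | inv y _ h1 =>
      have h3 : inL0 (E := E) (U := U) y⁻¹ = (inL0 y)⁻¹ := Subtype.ext (map_inv₀ (algebraMap K0 U) y)
      rw [h3]
      exact inv_mem h1
    | mul y z _ _ h1 h2 =>
      have h3 : inL0 (E := E) (U := U) (y * z) = inL0 y * inL0 z :=
        Subtype.ext (map_mul (algebraMap K0 U) y z)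
      rw [h3]
      exact mul_mem h1 h2
  rw [eq_top_iff]
  rintro ⟨z, hz⟩ -
  change z ∈ IntermediateField.adjoin E (Set.range (algebraMap K0 U)) at hz
  have key : ∀ z ∈ IntermediateField.adjoin E (Set.range (algebraMap K0 U)),
      ∃ hz : z ∈ L0 E K0 (U := U), (⟨z, hz⟩ : L0 E K0 (U := U)) ∈ F := by
    intro z hz
    induction hz using IntermediateField.adjoin_induction with
    | mem y hy =>
      obtain ⟨c, rfl⟩ := hy
      exact ⟨K_mem32 c, hK c⟩
    | algebraMap e => exact ⟨(L0 E K0 (U := U)).algebraMap_mem e, F.algebraMap_mem e⟩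
    | add y z _ _ h1 h2 =>
      obtain ⟨h1, h1'⟩ := h1
      obtain ⟨h2, h2'⟩ := h2
      exact ⟨add_mem h1 h2, add_mem h1' h2'⟩
    | inv y _ h1 =>
      obtain ⟨h1, h1'⟩ := h1
      exact ⟨inv_mem h1, inv_mem h1'⟩
    | mul y z _ _ h1 h2 =>
      obtain ⟨h1, h1'⟩ := h1
      obtain ⟨h2, h2'⟩ := h2
      exact ⟨mul_mem h1 h2, mul_mem h1' h2'⟩
  exact (key z hz).2

theorem ord_zero32 {F : Type} [Field F] [Algebra E F] [IsAlgClosed E] (hF : IsFunctionField E F)
    (b : Place E F)
    {z : F} (h : b.ring.valuation z = 1) : ord b.ring z = 0 := by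
  have hz : z ≠ 0 := by
    rintro rfl
    rw [map_zero] at h
    exact zero_ne_one h
  have h1 : 0 ≤ ord b.ring z := by
    rw [FF.ord_nonneg_iff hF b hz, ← ValuationSubring.valuation_le_one_iff, h]
  have h2 : ¬ 0 < ord b.ring z := by
    rw [FF.ord_pos_iff hF b hz, ValuationSubring.mem_nonunits_iff, h]
    exact lt_irrefl _
  omega

end line

theorem oI3 : StmtOI3 := by
  intro k K0 E U _ _ _ _ _ _ _ _ _ _ _ _ x f r H
  classical
  have hcl : IsAlgClosed E := H.geo.clE
  have hch : CharZero E := chE32 H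
  have hff := H.geo.ff
  obtain ⟨c, R, hc0, hR, hRc, hprod⟩ := split32 H
  have hprod' : inL0 (E := E) (U := U) (aeval x f) = algebraMap E (L0 E K0 (U := U)) c *
      ∏ β ∈ R, (inL0 x - algebraMap E (L0 E K0 (U := U)) β) := by
    apply (algebraMap (L0 E K0 (U := U)) U).injective
    rw [map_mul, map_prod]
    exact hprod
  constructor
  · intro b hb hx
    obtain ⟨γ, hγ⟩ := FF.exists_residue hff b hx
    rw [ValuationSubring.mem_nonunits_iff] at hγ
    refine ⟨γ, ?_, hγ⟩
    by_contra hcon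
    apply hb
    rw [ord_zero32 hff b]
    · exact dvd_zero _
    rw [hprod', map_mul, val_const32 b hc0, one_mul, map_prod]
    refine Finset.prod_eq_one fun β hβ => val_fin32 b hγ ?_
    rintro rfl
    exact hcon ((hR β).1 hβ)
  · intro β hβ
    have htr : Transcendental E (inL0 (E := E) (U := U) x - algebraMap E (L0 E K0 (U := U)) β) := by
      intro h
      apply trans32 H
      have h1 : IsAlgebraic E (inL0 (E := E) (U := U) x) := by
        have h2 := h.add (isAlgebraic_algebraMap (R := E) (A := L0 E K0 (U := U)) β)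
        rwa [sub_add_cancel] at h2
      exact (isAlgebraic_algebraMap_iff (R := E) (A := U)
        (algebraMap (L0 E K0 (U := U)) U).injective).2 h1
    obtain ⟨b, hb⟩ := FF.exists_place htr
    have hb' := hb
    rw [ValuationSubring.mem_nonunits_iff] at hb'
    refine ⟨b, ?_, hb'⟩
    have ht0 : inL0 (E := E) (U := U) x - algebraMap E (L0 E K0 (U := U)) β ≠ 0 := by
      intro h
      rw [h] at htr
      exact htr isAlgebraic_zero
    have h1 : ord b.ring (inL0 (E := E) (U := U) x - algebraMap E (L0 E K0 (U := U)) β) ≤ 1 := by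
      have h2 := FF.sum_ord_le hff htr {b} (fun P hP => by
        rw [Finset.mem_singleton] at hP
        rw [hP]
        exact hb)
      rw [Finset.sum_singleton] at h2
      refine h2.trans (le_of_eq ?_)
      rw [gen32 H β, IntermediateField.finrank_top]
      rfl
    have h2 : 0 < ord b.ring (inL0 (E := E) (U := U) x - algebraMap E (L0 E K0 (U := U)) β) :=
      (FF.ord_pos_iff hff b ht0).2 hb
    have hβR : β ∈ R := (hR β).2 hβ
    obtain ⟨q, hq⟩ : ∃ q, q = algebraMap E (L0 E K0 (U := U)) c *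
      ∏ γ ∈ R.erase β, (inL0 x - algebraMap E (L0 E K0 (U := U)) γ) := ⟨_, rfl⟩
    have hq1 : b.ring.valuation q = 1 := by
      rw [hq, map_mul, val_const32 b hc0, one_mul, map_prod]
      exact Finset.prod_eq_one fun γ hγ => val_fin32 b hb' (Finset.ne_of_mem_erase hγ)
    have hq0 : q ≠ 0 := by
      rintro h0
      rw [h0, map_zero] at hq1
      exact zero_ne_one hq1
    have h3 : inL0 (E := E) (U := U) (aeval x f) =
        q * (inL0 x - algebraMap E (L0 E K0 (U := U)) β) := by
      rw [hprod', hq, mul_assoc, Finset.prod_erase_mul _ _ hβR]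
    unfold BPl
    rw [h3, FF.ord_mul hff b hq0 ht0, ord_zero32 hff b hq1]
    omega

end

end Pool.Agent.TOW
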